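import Pool.Agent.Lib.MP_cdd7b4_an.H80.Defs
import Pool.Agent.Lib.MP_cdd7b4_an.H80.Rad
import Pool.Agent.Lib.MP_cdd7b4_an.H85.Defs

set_option autoImplicit false

/-! # Copies of `ℓ_t^m(ℓ_p^m)`: definitions -/

namespace Pool.Agent.Lib.MP_cdd7b4_an.MX

open MeasureTheory
open Pool.Agent.Lib.MP_cdd7b4_an.H80 (av sg)
open scoped BigOperators ENNReal

/-! ## Definitions of the final statement -/

/-- The norm of `ℓ_p^m`, `1 ≤ p < ∞`. -/
noncomputable def lpn {ι : Type*} [Fintype ι] (p : ℝ) (a : ι → ℝ) : ℝ :=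
  (∑ i, |a i| ^ p) ^ (1 / p)

/-- The norm of `ℓ_t^m`, `1 ≤ t ≤ ∞`. -/
noncomputable def ltn {m : ℕ} (t : ℝ≥0∞) (w : Fin m → ℝ) : ℝ :=
  if t = ∞ then ⨆ j, |w j| else lpn t.toReal w

/-- `X` contains the spaces `ℓ_p^m`, `m = 1, 2, …`, uniformly. -/
def ContainsLp (𝕜 : Type*) [RCLike 𝕜] (X : Type*) [NormedAddCommGroup X] [NormedSpace 𝕜 X]
    (p : ℝ) : Prop :=
  ∃ c C : ℝ, 0 < c ∧ ∀ m : ℕ, ∃ u : Fin m → X, ∀ a : Fin m → 𝕜,
    c * lpn p (fun l => ‖a l‖) ≤ ‖∑ l, a l • u l‖ ∧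
      ‖∑ l, a l • u l‖ ≤ C * lpn p (fun l => ‖a l‖)

/-- `X` contains the spaces `ℓ_t^m(ℓ_p^m)`, `m = 1, 2, …`, uniformly. -/
def ContainsMixed (𝕜 : Type*) [RCLike 𝕜] (X : Type*) [NormedAddCommGroup X] [NormedSpace 𝕜 X]
    (t : ℝ≥0∞) (p : ℝ) : Prop :=
  ∃ c C : ℝ, 0 < c ∧ ∀ m : ℕ, ∃ u : Fin m → Fin m → X, ∀ a : Fin m → Fin m → 𝕜,
    c * ltn t (fun j => lpn p (fun l => ‖a j l‖)) ≤ ‖∑ j, ∑ l, a j l • u j l‖ ∧
      ‖∑ j, ∑ l, a j l • u j l‖ ≤ C * ltn t (fun j => lpn p (fun l => ‖a j l‖))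

/-! ## Auxiliary definitions -/

/-- The norm of `ℓ_(1/r)^m`, `0 ≤ r ≤ 1`. -/
noncomputable def nr {m : ℕ} (r : ℝ) (w : Fin m → ℝ) : ℝ :=
  if r = 0 then ⨆ j, |w j| else lpn (1 / r) w

section rows

variable {𝕜 : Type*} [RCLike 𝕜] {X : Type*} [NormedAddCommGroup X] [NormedSpace 𝕜 X]
  {I Ω S : Type} [Fintype Ω] [Fintype S] [DecidableEq S]

/-- The average norm of `y + ∑ v_s U_(π s)`, the `U_(π s)` being independent copies of the random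
vectors `U_i : Ω → X` (`Ω` with the uniform distribution). -/
noncomputable def NU (U : I → Ω → X) (π : S → I) (v : S → 𝕜) (y : X) : ℝ :=
  av (fun κ : S → Ω => ‖∑ s, v s • U (π s) (κ s) + y‖)

/-- The same with real coefficients. -/
noncomputable def NR (𝕜 : Type*) [RCLike 𝕜] {X : Type*} [NormedAddCommGroup X] [NormedSpace 𝕜 X]
    {I Ω S : Type} [Fintype Ω] [Fintype S] [DecidableEq S] (U : I → Ω → X) (π : S → I)
    (w : S → ℝ) (y : X) : ℝ :=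
  NU U π (fun s => ((w s : ℝ) : 𝕜)) y

end rows

/-- The family of symmetric random vectors. -/
def Symm {X : Type*} [NormedAddCommGroup X] {I Ω : Type} (U : I → Ω → X) : Prop :=
  ∃ τ : Ω → Ω, Function.Involutive τ ∧ ∀ i κ, U i (τ κ) = - U i κ

/-- The properties of the random vectors `U_i` (block vectors in the columns of the row `i`). -/
structure Good (𝕜 : Type*) [RCLike 𝕜] {X : Type*} [NormedAddCommGroup X] [NormedSpace 𝕜 X]
    {I Ω : Type} [Fintype I] [Fintype Ω] (U : I → Ω → X) (p M η σ : ℝ) (n : ℕ) : Prop where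
  sym : Symm U
  lo : ∀ i, 1 / 4 ≤ av (fun κ => ‖U i κ‖)
  hi : ∀ i, av (fun κ => ‖U i κ‖) ≤ M
  eig : ∀ i, ∀ w : ℝ, 0 ≤ w → ∀ y : X,
    |av (fun κ : Ω × Ω => ‖((w : ℝ) : 𝕜) • (U i κ.1 + U i κ.2) + y‖) -
      av (fun κ => ‖((2 ^ (1 / p) * w : ℝ) : 𝕜) • U i κ + y‖)| ≤ η * w
  conc : ∀ (S : Type) [Fintype S] [DecidableEq S] (π : S → I) (v : S → 𝕜),
    av (fun κ : S → Ω => (‖∑ s, v s • U (π s) (κ s)‖ - NU U π v 0) ^ 2) ≤
      σ ^ 2 * ∑ s, ‖v s‖ ^ 2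
  grow : ∀ k ≤ n, av (fun π : Fin (2 ^ k) → I => NR 𝕜 U π (fun _ => 1) 0) ≤
    M * (1 + k) ^ 2 * (2 : ℝ) ^ ((k : ℝ) / 2)

/-! ## Symmetric norms on finitely supported sequences -/

/-- A symmetric seminorm on the finitely supported sequences. -/
structure SymF (F : (ℕ →₀ ℝ) → ℝ) : Prop where
  add : ∀ u v, F (u + v) ≤ F u + F v
  smul : ∀ (c : ℝ) u, F (c • u) = |c| * F u
  mono : ∀ u v : ℕ →₀ ℝ, (∀ i, |u i| ≤ |v i|) → F u ≤ F v
  emb : ∀ (f : ℕ ↪ ℕ) u, F (u.embDomain f) = F u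

/-- The indicator of `[0, d)`. -/
noncomputable def ind (d : ℕ) : ℕ →₀ ℝ := ∑ i ∈ Finset.range d, Finsupp.single i 1

/-- `i ↦ m i + j`. -/
def em {m : ℕ} (j : Fin m) : ℕ ↪ ℕ :=
  ⟨fun i => m * i + j, fun a b h => by
    have hm : 0 < m := j.pos
    have h' : m * a = m * b := Nat.add_right_cancel h
    exact Nat.eq_of_mul_eq_mul_left hm h'⟩

/-- The sum of `m` disjoint copies of `W` with coefficients `b`. -/
noncomputable def cop {m : ℕ} (b : Fin m → ℝ) (W : ℕ →₀ ℝ) : ℕ →₀ ℝ :=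
  ∑ j, b j • W.embDomain (em j)

/-- Dilation: `(dil W)(i) = W(i / 2)`, two disjoint copies of `W`. -/
noncomputable def dil (W : ℕ →₀ ℝ) : ℕ →₀ ℝ := cop (m := 2) (fun _ => 1) W

/-- The symmetric norm of the family `U`: random rows and independent random vectors. -/
noncomputable def Fbar (𝕜 : Type*) [RCLike 𝕜] {X : Type*} [NormedAddCommGroup X]
    [NormedSpace 𝕜 X] {I Ω : Type} [Fintype I] [Fintype Ω] (U : I → Ω → X) (w : ℕ →₀ ℝ) : ℝ :=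
  av (fun π : w.support → I => NR 𝕜 U π (fun s => w s) 0)

/-- Rows and weights whose sums behave like `ℓ_(1/r)^m`. -/
def RowsOK (𝕜 : Type*) [RCLike 𝕜] {X : Type*} [NormedAddCommGroup X] [NormedSpace 𝕜 X]
    {I Ω : Type} [Fintype Ω] (U : I → Ω → X) (m : ℕ) (C R r : ℝ) : Prop :=
  ∃ (s0 : ℕ) (W : Fin s0 → ℝ) (π : Fin m × Fin s0 → I) (A : ℝ), 0 < A ∧ (∀ s, 0 ≤ W s) ∧
    ∑ s, W s ≤ R * A ∧ ∀ b : Fin m → ℝ, (∀ j, 0 ≤ b j) →
      nr r b * A ≤ C * NR 𝕜 U π (fun js => b js.1 * W js.2) 0 ∧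
      NR 𝕜 U π (fun js => b js.1 * W js.2) 0 ≤ C * (nr r b * A)

/-! ## Columns -/

/-- The block vector of one row with profile `a`: random columns and signs. -/
noncomputable def blk (𝕜 : Type*) [RCLike 𝕜] {X : Type*} [NormedAddCommGroup X]
    [NormedSpace 𝕜 X] {K D : ℕ} (x : Fin K → X) (a : Fin D → ℝ)
    (κ : Fin D → Fin K × Bool) : X :=
  ∑ i, ((a i : ℝ) : 𝕜) • (sg 𝕜 (κ i).2 • x (κ i).1)

/-- `M` random rows, in each of them the block vector with profile `a`; the average norm of the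
sum. -/
noncomputable def Psi (𝕜 : Type*) [RCLike 𝕜] {X : Type*} [NormedAddCommGroup X]
    [NormedSpace 𝕜 X] {N K D : ℕ} (x : Fin N → Fin K → X) (M : ℕ) (a : Fin D → ℝ) : ℝ :=
  av (fun ν : Fin M → Fin N =>
    NR 𝕜 (fun n (κ : Fin D → Fin K × Bool) => blk 𝕜 (x n) a κ) ν (fun _ => 1) 0)

open Classical in
/-- Truncation at the level `τ`. -/
noncomputable def xt {X : Type*} [NormedAddCommGroup X] {N K : ℕ} (τ : ℝ)
    (x : Fin N → Fin K → X) : Fin N → Fin K → X :=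
  fun n k => if ‖x n k‖ ≤ τ then x n k else 0

end Pool.Agent.Lib.MP_cdd7b4_an.MX
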