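import Pool.Agent.Lib.MP_cdd7b4_an.MX.Defs

set_option autoImplicit false

/-! # Copies of `ℓ_t^m(ℓ_p^m)`: statements of the modules -/

namespace Pool.Agent.Lib.MP_cdd7b4_an.MX

open MeasureTheory
open Pool.Agent.Lib.MP_cdd7b4_an.H80 (av sg HasType ContainsUniformly)
open scoped BigOperators ENNReal

/-! ## B. Finite probability -/

/-- MARG (100 lines). Marginals of the uniform distribution, pairs, currying. -/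
def MargStatement : Prop :=
  (∀ (ι ι' Q : Type) [Fintype ι] [DecidableEq ι] [Fintype ι'] [DecidableEq ι'] [Fintype Q]
    [Nonempty Q] (e : ι ↪ ι') (F : (ι → Q) → ℝ), av (fun κ : ι' → Q => F (κ ∘ e)) = av F) ∧
  (∀ (A B : Type) [Fintype A] [Fintype B] (f : A → B → ℝ),
    av (fun z : A × B => f z.1 z.2) = av (fun a => av (fun b => f a b)) ∧
    av (fun a => av (fun b => f a b)) = av (fun b => av (fun a => f a b))) ∧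
  (∀ (ι ι' Q : Type) [Fintype ι] [DecidableEq ι] [Fintype ι'] [DecidableEq ι'] [Fintype Q]
    (f : (ι → Q) → (ι' → Q) → ℝ),
    av (fun κ : ι ⊕ ι' → Q => f (κ ∘ Sum.inl) (κ ∘ Sum.inr)) = av (fun κ => av (fun κ' => f κ κ'))) ∧
  (∀ (ι ι' Q : Type) [Fintype ι] [DecidableEq ι] [Fintype ι'] [DecidableEq ι'] [Fintype Q]
    (F : (ι → ι' → Q) → ℝ), av (fun κ : ι × ι' → Q => F (fun i j => κ (i, j))) = av F)

/-- EFRON (100 lines). The Efron-Stein inequality; `g i` does not depend on the coordinate `i`.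
Induction on the number of coordinates: with `h(κ) = av_q f(κ, q)` (average over the last
coordinate) `Var f = av (f - h)² + Var h`, `av (f - h)² ≤ av (f - g)²` (the mean minimises), and
`av (h - av_q g_i)² ≤ av (f - g_i)²`. -/
def EfronStatement : Prop :=
  ∀ (ι Q : Type) [Fintype ι] [DecidableEq ι] [Fintype Q] [Nonempty Q] (f : (ι → Q) → ℝ)
    (g : ι → (ι → Q) → ℝ), (∀ i κ q, g i (Function.update κ i q) = g i κ) →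
    av (fun κ => (f κ - av f) ^ 2) ≤ ∑ i, av (fun κ => (f κ - g i κ) ^ 2)

/-- UNC (120 lines, uses MARG). Independent symmetric vectors are unconditional; complex
multipliers cost a factor two (real and imaginary parts). -/
def UncStatement (𝕜 : Type*) [RCLike 𝕜] (X : Type*) [NormedAddCommGroup X]
    [NormedSpace 𝕜 X] : Prop :=
  ∀ (I Ω S : Type) [Fintype Ω] [Nonempty Ω] [Fintype S] [DecidableEq S] (U : I → Ω → X),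
    Symm U → ∀ (π : S → I) (u v : S → 𝕜),
    ((∀ s, ∃ θ : ℝ, |θ| ≤ 1 ∧ u s = (θ : 𝕜) * v s) → NU U π u 0 ≤ NU U π v 0) ∧
    ((∀ s, ‖u s‖ ≤ ‖v s‖) → NU U π u 0 ≤ 2 * NU U π v 0)

/-- SELFB (120 lines, uses EFRON, UNC, MARG). The norm is self-bounding in the rows: with
`g_s(π) = NR U π (w without s)` one has `0 ≤ f - g_s ≤ b M`, and `∑ (f - g_s) ≤ f` (a norming
functional `φ` of `z = ∑ z_s` gives `∑ (‖z‖ - ‖z - z_s‖) ≤ ∑ φ(z_s) = ‖z‖`). -/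
def SelfbStatement (𝕜 : Type*) [RCLike 𝕜] (X : Type*) [NormedAddCommGroup X]
    [NormedSpace 𝕜 X] : Prop :=
  ∀ (I Ω S : Type) [Fintype I] [Nonempty I] [Fintype Ω] [Nonempty Ω] [Fintype S] [DecidableEq S]
    (U : I → Ω → X) (M : ℝ), Symm U → (∀ i, av (fun κ => ‖U i κ‖) ≤ M) →
    ∀ (w : S → ℝ) (b : ℝ), (∀ s, 0 ≤ w s ∧ w s ≤ b) →
    av (fun π : S → I => (NR 𝕜 U π w 0 - av (fun π : S → I => NR 𝕜 U π w 0)) ^ 2) ≤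
      b * M * av (fun π : S → I => NR 𝕜 U π w 0)

/-- SYMF (150 lines, uses MARG, UNC). `Fbar` is a symmetric norm and can be computed on every
finite set containing the support. -/
def SymfStatement (𝕜 : Type*) [RCLike 𝕜] (X : Type*) [NormedAddCommGroup X]
    [NormedSpace 𝕜 X] : Prop :=
  ∀ (I Ω : Type) [Fintype I] [Nonempty I] [Fintype Ω] [Nonempty Ω] (U : I → Ω → X),
    Symm U → SymF (Fbar 𝕜 U) ∧
    ∀ (S : Type) [Fintype S] [DecidableEq S] (e : S ↪ ℕ) (w : ℕ →₀ ℝ),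
      (∀ i, w i ≠ 0 → i ∈ Set.range e) →
      Fbar 𝕜 U w = av (fun π : S → I => NR 𝕜 U π (fun s => w (e s)) 0)

/-! ## R. Symmetric norms: Krivine's theorem up to constants -/

/-- ROUND (150 lines). Dyadic rounding: with `P_l = (b_l / w)^(1/r)`, `∑ P_l = 1`, take
`q = clog 2 m + 2`; upper: the least `κ ≤ q` with ... `2^(-κ) ≥ P_l` as large as possible, i.e.
`2^(-κ-1) < P_l ≤ 2^(-κ)` or `κ = q`; lower: `L = {P_l ≥ 1/(2m)}`, `2^(-κ) ≤ P_l < 2^(1-κ)`. -/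
def RoundStatement : Prop :=
  ∀ m : ℕ, 1 ≤ m → ∃ q : ℕ, 2 ≤ q ∧ ∀ (r : ℝ), 0 < r → r ≤ 1 → ∀ b : Fin m → ℝ, (∀ l, 0 ≤ b l) →
    (∃ κ : Fin m → ℕ, (∀ l, κ l ≤ q ∧
        b l ≤ lpn (1 / r) b * (2 : ℝ) ^ (-(r * κ l))) ∧ ∑ l, 2 ^ (q - κ l) ≤ 2 ^ (q + 2)) ∧
    ∃ (κ : Fin m → ℕ) (L : Finset (Fin m)), (∀ l ∈ L, κ l ≤ q ∧
        lpn (1 / r) b * (2 : ℝ) ^ (-(r * κ l)) ≤ b l) ∧ 2 ^ (q - 2) ≤ ∑ l ∈ L, 2 ^ (q - κ l)

/-- JOINT (250 lines, uses ROUND, MARG, UNC). The columns of the rows `π s` behave like `ℓ_p`: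
by `eig` a block vector with coefficient `2^(1/p) w` may be replaced by two independent ones with
coefficient `w` at the cost `η w`; so `w 2^(-κ/p) U` may be replaced by `2^(q-κ)` copies with
coefficient `w 2^(-q/p)`; then count copies with ROUND (`r = 1/p`) and replace them back. -/
def JointStatement (𝕜 : Type*) [RCLike 𝕜] (X : Type*) [NormedAddCommGroup X]
    [NormedSpace 𝕜 X] : Prop :=
  ∀ p : ℝ, 1 ≤ p → p < 2 → ∀ m : ℕ, 1 ≤ m → ∃ Cm : ℝ, 0 < Cm ∧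
    ∀ (I Ω S : Type) [Fintype I] [Nonempty I] [Fintype Ω] [Nonempty Ω] [Fintype S]
      [DecidableEq S] (U : I → Ω → X) (M η σ : ℝ) (n : ℕ), 0 ≤ η → Good 𝕜 U p M η σ n →
    ∀ (π : S → I) (v : S → Fin m → 𝕜),
    NU U (fun z : S × Fin m => π z.1) (fun z => v z.1 z.2) 0 ≤
      8 * NR 𝕜 U π (fun s => lpn p (fun l => ‖v s l‖)) 0 +
        Cm * η * ∑ s, lpn p (fun l => ‖v s l‖) ∧
    NR 𝕜 U π (fun s => lpn p (fun l => ‖v s l‖)) 0 ≤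
      8 * NU U (fun z : S × Fin m => π z.1) (fun z => v z.1 z.2) 0 +
        Cm * η * ∑ s, lpn p (fun l => ‖v s l‖)

/-- SLOPE (150 lines). A function with increments in `[0, 1]` and small total growth touches a
line of small slope from above, up to `i / L`: if `g` at the midpoint `c` of `[a, b]` satisfies
`g(c) - g(a) ≥ (r - 1/(2L)) (c - a)`, `r` the average slope, take the maximum of
`g(k) - r k - |k - c| / L` (it is at distance at least `(b - a) / (8 L)` from the ends); otherwise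
pass to `[a, c]`, where the average slope is smaller by `1/(2L)`. -/
def SlopeStatement : Prop :=
  ∀ (L : ℕ) (δ : ℝ), 1 ≤ L → 0 < δ → ∃ e : ℕ, ∀ (g : ℕ → ℝ) (a : ℕ),
    (∀ k, a ≤ k → k < a + 2 ^ e → g k ≤ g (k + 1) ∧ g (k + 1) ≤ g k + 1) →
    g (a + 2 ^ e) - g a ≤ (1 / 2 + δ) * 2 ^ e →
    ∃ r : ℝ, 0 ≤ r ∧ r ≤ 1 / 2 + δ ∧ r ≤ 1 ∧ ∃ k, a + L ≤ k ∧ k + L ≤ a + 2 ^ e ∧ ∀ i, i ≤ L →
      g (k + i) ≤ g k + r * i + (i : ℝ) / L ∧ g (k - i) ≤ g k - r * i + (i : ℝ) / L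

/-- TENT (200 lines). An approximate eigenvector of the dilation: `z_i = 2^(-r i) ind (2^i)`,
`dil z_i = 2^r z_(i+1)`, `G_j = F (∑_{|i-k| ≤ 3^j} z_i)`; `G_0 ≥ f_k`, `G_J ≤ (2·3^J+1) 2 f_k`,
`f_k = F z_k`; so for some `j < J` `G_(j+1) ≤ c 3^j G_j`, and `W = ∑ h_i z_i` with the tent
function `h` (`1` for `|i-k| ≤ 3^j`, slope `1/(2·3^j)`) satisfies
`dil W - 2^r W = 2^r ∑ (h_(i-1) - h_i) z_i`. -/
def TentStatement : Prop :=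
  ∀ c : ℝ, 0 < c → ∃ J : ℕ, ∀ F : (ℕ →₀ ℝ) → ℝ, SymF F → ∀ r : ℝ, 0 ≤ r → r ≤ 1 → ∀ k : ℕ,
    3 ^ J ≤ k → 0 < F (ind (2 ^ k)) →
    (∀ i, i ≤ 3 ^ J → F (ind (2 ^ (k + i))) ≤ 2 * 2 ^ (r * i) * F (ind (2 ^ k)) ∧
      F (ind (2 ^ (k - i))) ≤ 2 * 2 ^ (-(r * i)) * F (ind (2 ^ k))) →
    ∃ W : ℕ →₀ ℝ, (∀ i, 0 ≤ W i) ∧ (∀ i, 2 ^ (k + 3 ^ J) ≤ i → W i = 0) ∧ 0 < F W ∧
      F (dil W - (2 : ℝ) ^ r • W) ≤ c * F W ∧
      ∀ i, W i * F (ind (2 ^ k)) ≤ (2 * 3 ^ J + 1) * 2 ^ (3 ^ J) * F W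

/-- LT (200 lines, uses ROUND). An approximate eigenvector generates `ℓ_(1/r)^m`: for `r > 0` as in
JOINT (copies of `W`, monotonicity in the number of copies); for `r = 0`
`max b F(W) ≤ F(cop b W) ≤ max b F(m copies)`. (If `m^r ≤ 2` one may also argue as for `r = 0`.) -/
def LtStatement : Prop :=
  ∀ m : ℕ, 1 ≤ m → ∃ c : ℝ, 0 < c ∧ ∀ F : (ℕ →₀ ℝ) → ℝ, SymF F → ∀ r : ℝ, 0 ≤ r → r ≤ 1 →
    ∀ W : ℕ →₀ ℝ, (∀ i, 0 ≤ W i) → F (dil W - (2 : ℝ) ^ r • W) ≤ c * F W →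
    ∀ b : Fin m → ℝ, (∀ j, 0 ≤ b j) →
      nr r b * F W ≤ 8 * F (cop b W) ∧ F (cop b W) ≤ 8 * (nr r b * F W)

/-- RK (150 lines, uses SLOPE, TENT, LT). Either `F` grows slowly somewhere, or there is a block
vector generating `ℓ_(1/r)^m`, `r ≤ 1/2 + δ`, with small coefficients. If `F` never grows slowly
then `F (ind (2^k)) ≥ 2^(k/q - 3)`; apply SLOPE to `g(k) = logb 2 (F (ind (2^k)))` on
`[a, a + 2^e]`, `a` large, and TENT, LT. -/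
def RkStatement : Prop :=
  ∀ (m : ℕ) (B δ ε : ℝ), 1 ≤ m → 1 ≤ B → 0 < δ → 0 < ε → ∃ n : ℕ,
    ∀ F : (ℕ →₀ ℝ) → ℝ, SymF F → 1 / 4 ≤ F (ind 1) →
    (∀ k ≤ n, F (ind (2 ^ k)) ≤ B * (1 + k) ^ 2 * (2 : ℝ) ^ ((k : ℝ) / 2)) →
    (∃ k ≤ n, F (ind (2 ^ (k + Nat.clog 2 (4 * m)))) ≤ 2 * F (ind (2 ^ k))) ∨
    ∃ r : ℝ, 0 ≤ r ∧ r ≤ 1 / 2 + δ ∧ ∃ W : ℕ →₀ ℝ, (∀ i, 0 ≤ W i) ∧ (∀ i, 2 ^ n ≤ i → W i = 0) ∧
      0 < F W ∧ (∀ i, W i ≤ ε * F W) ∧ ∀ b : Fin m → ℝ, (∀ j, 0 ≤ b j) →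
        nr r b * F W ≤ 8 * F (cop b W) ∧ F (cop b W) ≤ 8 * (nr r b * F W)

/-! ## S. Selection of the rows and of the columns -/

/-- SEL1 (200 lines, uses SYMF, SELFB, UNC, MARG). Slow growth gives `ℓ_∞^m`. `l = F (ind 2^k)`.
If `l ≥ 16 M`: sample rows for `2^q` blocks of `2^k` slots; a block is bad if its norm is below
`l / 2` (probability at most `1/4` by SELFB and Chebyshev); with positive probability at most half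
of the blocks are bad and the norm of the sum of all is at most `8 l`; take `m` good blocks. If
`l < 16 M`: a sample with norm of the sum of all slots at most `32 M`, and the first `m` slots. -/
def Sel1Statement (𝕜 : Type*) [RCLike 𝕜] (X : Type*) [NormedAddCommGroup X]
    [NormedSpace 𝕜 X] : Prop :=
  ∀ (I Ω : Type) [Fintype I] [Nonempty I] [Fintype Ω] [Nonempty Ω] (U : I → Ω → X) (M : ℝ),
    Symm U → (∀ i, 1 / 4 ≤ av (fun κ => ‖U i κ‖)) → (∀ i, av (fun κ => ‖U i κ‖) ≤ M) → 1 ≤ M →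
    ∀ m k : ℕ, 1 ≤ m →
    Fbar 𝕜 U (ind (2 ^ (k + Nat.clog 2 (4 * m)))) ≤ 2 * Fbar 𝕜 U (ind (2 ^ k)) →
    RowsOK 𝕜 U m (32 * M) (2 ^ k) 0

/-- SEL2 (200 lines, uses SYMF, SELFB, UNC, MARG). `f_b(π) = NR U π (b ⊗ W)` has mean
`Fbar (cop b W)` and variance at most `max W * M * mean` for `b ≤ 1`; a sample `π` such that
`f_b ∈ [3/4, 5/4] mean` for all `b ∈ {0, 1/Q, ..., 1}^m` with maximum one (`Q = 4 m`), then round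
up and down: `f_b ∈ [1/2, 2] mean` for all `b`. -/
def Sel2Statement (𝕜 : Type*) [RCLike 𝕜] (X : Type*) [NormedAddCommGroup X]
    [NormedSpace 𝕜 X] : Prop :=
  ∀ (m : ℕ) (M : ℝ), 1 ≤ m → 1 ≤ M → ∃ ε : ℝ, 0 < ε ∧ ε ≤ 1 ∧
    ∀ (I Ω : Type) [Fintype I] [Nonempty I] [Fintype Ω] [Nonempty Ω] (U : I → Ω → X),
    Symm U → (∀ i, av (fun κ => ‖U i κ‖) ≤ M) → ∀ (n : ℕ) (r : ℝ) (W : ℕ →₀ ℝ),
    0 ≤ r → r ≤ 1 → (∀ i, 0 ≤ W i) → (∀ i, 2 ^ n ≤ i → W i = 0) → 0 < Fbar 𝕜 U W →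
    (∀ i, W i ≤ ε * Fbar 𝕜 U W) →
    (∀ b : Fin m → ℝ, (∀ j, 0 ≤ b j) → nr r b * Fbar 𝕜 U W ≤ 8 * Fbar 𝕜 U (cop b W) ∧
      Fbar 𝕜 U (cop b W) ≤ 8 * (nr r b * Fbar 𝕜 U W)) →
    RowsOK 𝕜 U m 16 (2 ^ n) r

/-- FINC (250 lines, uses JOINT, UNC, MARG). Selection of the columns: by JOINT with the rows
`π (j, s)` and `v_((j,s),l) = a_(jl) W_s` the average norm is, up to `16 C`, equal to
`nr r (..) * A` if `η` is small; by `conc` and a finite net of the unit ball of `𝕜^(m×m)` one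
sample is good for all `a`. `u_(jl) = (32 C / A) ∑_s W_s U_(π (j,s)) (κ (j,s,l))`. -/
def FincStatement (𝕜 : Type*) [RCLike 𝕜] (X : Type*) [NormedAddCommGroup X]
    [NormedSpace 𝕜 X] : Prop :=
  ∀ (p : ℝ) (m : ℕ) (C R : ℝ), 1 ≤ p → p < 2 → 1 ≤ m → 1 ≤ C → 0 < R →
    ∃ η0 σ0 : ℝ, 0 < η0 ∧ 0 < σ0 ∧ ∀ (I Ω : Type) [Fintype I] [Nonempty I] [Fintype Ω]
      [Nonempty Ω] (U : I → Ω → X) (M r : ℝ) (n : ℕ), Good 𝕜 U p M η0 σ0 n → 0 ≤ r → r ≤ 1 →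
    RowsOK 𝕜 U m C R r →
    ∃ u : Fin m → Fin m → X, ∀ a : Fin m → Fin m → 𝕜,
      nr r (fun j => lpn p (fun l => ‖a j l‖)) ≤ ‖∑ j, ∑ l, a j l • u j l‖ ∧
      ‖∑ j, ∑ l, a j l • u j l‖ ≤ 600 * C ^ 2 * nr r (fun j => lpn p (fun l => ‖a j l‖))

/-- LIM (200 lines). Passage to the limit in `r` (compactness of `[0, 1]`; the norms `nr r w`,
`nr r' w` of `w ∈ ℝ^m` are equivalent up to `m^|r - r'|`; `2 ≤ t = 1/r ≤ ∞`). -/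
def LimStatement (𝕜 : Type*) [RCLike 𝕜] (X : Type*) [NormedAddCommGroup X]
    [NormedSpace 𝕜 X] : Prop :=
  ∀ (p C : ℝ), 1 ≤ p → (∀ (m : ℕ) (δ : ℝ), 1 ≤ m → 0 < δ → ∃ r : ℝ, 0 ≤ r ∧ r ≤ 1 / 2 + δ ∧
      ∃ u : Fin m → Fin m → X, ∀ a : Fin m → Fin m → 𝕜,
        nr r (fun j => lpn p (fun l => ‖a j l‖)) ≤ ‖∑ j, ∑ l, a j l • u j l‖ ∧
        ‖∑ j, ∑ l, a j l • u j l‖ ≤ C * nr r (fun j => lpn p (fun l => ‖a j l‖))) →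
    ∃ t : ℝ≥0∞, 2 ≤ t ∧ ContainsMixed 𝕜 X t p

/-! ## P. From `L¹(X)` to the block vectors -/

/-- HEAVY1 (60 lines). The mass and the probability of `{g > τ}` from the mean of the maximum of
`M` samples. `av h ≥ av (max g(f j)) ≥ M av(g 1) (1 - (M-1) θ)`, resp. `≥ τ (M θ - (M θ)²/2)`. -/
def Heavy1Statement : Prop :=
  ∀ (P : Type) [Fintype P] [Nonempty P] (g : P → ℝ) (M : ℕ) (h : (Fin M → P) → ℝ) (τ : ℝ),
    (∀ z, 0 ≤ g z) → 1 ≤ M → 0 ≤ τ → (∀ f, 0 ≤ h f) → (∀ f j, g (f j) ≤ h f) →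
    ((M : ℝ) * av (fun z => if τ < g z then 1 else 0) ≤ 1 / 2 →
      M * av (fun z => if τ < g z then g z else 0) ≤ 2 * av h) ∧
    ((M : ℝ) * av (fun z => if τ < g z then 1 else 0) ≤ 1 →
      M * τ * av (fun z => if τ < g z then 1 else 0) ≤ 2 * av h)

/-- HEAVY (150 lines, uses HEAVY1). The tails of a population whose maxima of `2^j` samples have
mean at most `β (1+j)² 2^(j/2)`: `P(g > 2^i) ≤ C (1+i)⁴ 4^(-i)` for `3 i + 3 ≤ J` (take the largest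
`M = 2^j` with `M P ≤ 1`), then sum over `i`; the last bound with `M = 2^j ≈ 2^i / (4 β)`. -/
def HeavyStatement : Prop :=
  ∀ (β q : ℝ), 1 ≤ β → 1 ≤ q → q < 2 → ∃ C : ℝ, 0 < C ∧ ∀ (P : Type) [Fintype P] [Nonempty P]
    (g : P → ℝ) (J : ℕ) (h : (j : ℕ) → (Fin (2 ^ j) → P) → ℝ), (∀ z, 0 ≤ g z) → av g ≤ β →
    (∀ j f, 0 ≤ h j f) → (∀ j ≤ J, (∀ f i, g (f i) ≤ h j f) ∧
      av (h j) ≤ β * (1 + j) ^ 2 * (2 : ℝ) ^ ((j : ℝ) / 2)) →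
    ∀ i0 i1 : ℕ, i0 ≤ i1 → 3 * i1 + 3 ≤ J →
    av (fun z => if (2 : ℝ) ^ i0 < g z ∧ g z ≤ (2 : ℝ) ^ i1 then g z ^ q else 0) ≤
      C * (1 + i0) ^ 4 * (2 : ℝ) ^ (-((2 - q) * i0)) ∧
    av (fun z => if (2 : ℝ) ^ i1 < g z then g z else 0) ≤
      C * (1 + i1) ^ 2 * (2 : ℝ) ^ (-((i1 : ℝ) / 2))

/-- TRUNC (200 lines, uses HEAVY, UNC, MARG). The part of the block vectors above the level
`2^i0` is small: moderate part (up to `2^i1`) by type `q`, Jensen and HEAVY, the rest by the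
triangle inequality and HEAVY. The population is `Fin N × Fin K`, `g = ‖x n k‖`, and
`h j f` is the average over signs of the norm of the signed sum, `Psi` being its average. -/
def TruncStatement (𝕜 : Type*) [RCLike 𝕜] (X : Type*) [NormedAddCommGroup X]
    [NormedSpace 𝕜 X] : Prop :=
  ∀ (β q : ℝ), 1 ≤ β → 1 ≤ q → q < 2 → HasType X q → ∃ C : ℝ, 0 < C ∧
    ∀ (N K J D : ℕ) (x : Fin N → Fin K → X) (a : Fin D → ℝ), 0 < N → 0 < K → (∀ i, 0 ≤ a i) →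
    (∀ j ≤ J, Psi 𝕜 x (2 ^ j) (fun _ : Fin 1 => (1 : ℝ)) ≤
      β * (1 + j) ^ 2 * (2 : ℝ) ^ ((j : ℝ) / 2)) →
    ∀ i0 i1 : ℕ, i0 ≤ i1 → 3 * i1 + 3 ≤ J →
    av (fun n => av (fun κ : Fin D → Fin K × Bool =>
        ‖blk 𝕜 (x n) a κ - blk 𝕜 (xt ((2 : ℝ) ^ i0) x n) a κ‖)) ≤
      C * ((1 + i0) ^ 4 * (2 : ℝ) ^ (-((2 - q) * i0))) ^ (1 / q) * lpn q a +
        C * (1 + i1) ^ 2 * (2 : ℝ) ^ (-((i1 : ℝ) / 2)) * lpn 1 a

/-- ROWS (100 lines, uses HEAVY1). A positive proportion of good rows. Bulk: with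
`M₀ = 2^j`, `τ = 2 M₀`, HEAVY1 gives `av (F 1_(F > τ)) ≤ 1/8`; so `av (F' 1_(F ≤ τ)) ≥ 3/4`, at
least `1/(2τ)` of the rows have `F' ≥ 1/4`, `F ≤ τ`; remove those with `G > 4 β τ`. -/
def RowsStatement : Prop :=
  ∀ β : ℝ, 1 ≤ β → ∃ (M ρ : ℝ) (k0 : ℕ), 1 ≤ M ∧ 0 < ρ ∧ ∀ (N : ℕ) (F F' G : Fin N → ℝ)
    (h : (k : ℕ) → (Fin (2 ^ k) → Fin N) → ℝ), 0 < N → (∀ n, 0 ≤ F' n) → (∀ n, F' n ≤ F n) →
    (∀ n, 0 ≤ G n) → (∀ k ν, 0 ≤ h k ν) → av F = 1 → 7 / 8 ≤ av F' → av G ≤ β →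
    (∀ k ≤ k0, (∀ ν j, F (ν j) ≤ h k ν) ∧ av (h k) ≤ β * (1 + k) ^ 2 * (2 : ℝ) ^ ((k : ℝ) / 2)) →
    ∃ R : Finset (Fin N), ρ * N ≤ R.card ∧ ∀ n ∈ R, 1 / 4 ≤ F' n ∧ F n ≤ M ∧ G n ≤ M

/-- SUB (120 lines, uses MARG, UNC). Sampling from a subset of the rows. First drop the slots with
`ν s ∉ R` (UNC); then, coordinate by coordinate, convexity:
`av_(n ∈ [N]) ‖1_(n ∈ R) U_n + y‖ ≥ av_(n ∈ R) ‖(|R|/N) U_n + y‖`. -/
def SubStatement (𝕜 : Type*) [RCLike 𝕜] (X : Type*) [NormedAddCommGroup X]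
    [NormedSpace 𝕜 X] : Prop :=
  ∀ (N M : ℕ) (Ω : Type) [Fintype Ω] [Nonempty Ω] (U : Fin N → Ω → X) (R : Finset (Fin N)),
    Symm U → R.Nonempty →
    (R.card : ℝ) / N * av (fun π : Fin M → R => NR 𝕜 (fun i : R => U i.1) π (fun _ => 1) 0) ≤
      av (fun ν : Fin M → Fin N => NR 𝕜 U ν (fun _ => 1) 0)

/-- CONC (80 lines, uses EFRON, MARG). Concentration of the norm: sums of many bounded independent
vectors (currying `S → Fin D → Q`, bounded differences `2 τ ‖v s‖ |a i|`). -/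
def ConcStatement (𝕜 : Type*) [RCLike 𝕜] (X : Type*) [NormedAddCommGroup X]
    [NormedSpace 𝕜 X] : Prop :=
  ∀ (I S : Type) [Fintype S] [DecidableEq S] (K D : ℕ) (x : I → Fin K → X) (a : Fin D → ℝ)
    (τ : ℝ), 0 < K → (∀ i k, ‖x i k‖ ≤ τ) → ∀ (π : S → I) (v : S → 𝕜),
    av (fun κ : S → Fin D → Fin K × Bool => (‖∑ s, v s • blk 𝕜 (x (π s)) a (κ s)‖ -
      NU (fun i (κ : Fin D → Fin K × Bool) => blk 𝕜 (x i) a κ) π v 0) ^ 2) ≤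
      (2 * τ) ^ 2 * (∑ i, a i ^ 2) * ∑ s, ‖v s‖ ^ 2

/-- EIG (100 lines, uses MARG, UNC). The coupling: two independent block vectors with profile `a`
are one block vector with profile `i ↦ a(i / 2)`, which differs from `2^(1/p) a` by at most
`θ b`. -/
def EigStatement (𝕜 : Type*) [RCLike 𝕜] (X : Type*) [NormedAddCommGroup X]
    [NormedSpace 𝕜 X] : Prop :=
  ∀ (K D : ℕ) (x : Fin K → X) (a b : ℕ → ℝ) (lam θ : ℝ), 0 < K → 0 ≤ θ → 0 ≤ lam →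
    (∀ i, 0 ≤ a i) → (∀ i, 0 ≤ b i) → (∀ i, D ≤ i → a i = 0) → (∀ i, D ≤ i → b i = 0) →
    (∀ i, |a (i / 2) - lam * a i| ≤ θ * b i) → ∀ w : ℝ, 0 ≤ w → ∀ y : X,
    |av (fun κ : (Fin D → Fin K × Bool) × (Fin D → Fin K × Bool) => ‖((w : ℝ) : 𝕜) •
        (blk 𝕜 x (fun i : Fin D => a i) κ.1 + blk 𝕜 x (fun i : Fin D => a i) κ.2) + y‖) -
      av (fun κ => ‖((lam * w : ℝ) : 𝕜) • blk 𝕜 x (fun i : Fin D => a i) κ + y‖)| ≤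
      θ * w * av (fun κ => ‖blk 𝕜 x (fun i : Fin D => b i) κ‖)

/-- PROF (250 lines). The profiles: `z_κ = 2^(-κ/p) 1_[0, 2^κ)`, `κ0 ≤ κ ≤ κ0 + 3 ℓ`,
`a = ∑ h_κ z_κ`, `h_κ = min(1, (κ - κ0)/ℓ, (κ0 + 3ℓ - κ)/ℓ)`, `b = ∑ z_κ`. On
`[2^(κ-1), 2^κ)`: `b ≤ 3.42 · 2^(-κ/p)`, `a ≥ 2^(-κ/p)` for `κ` in the middle third. -/
def ProfStatement : Prop :=
  ∀ (p : ℝ) (l κ0 : ℕ), 1 ≤ p → p < 2 → 1 ≤ l → ∃ a b : ℕ → ℝ,
    (∀ i, 0 ≤ a i ∧ a i ≤ b i) ∧ (∀ i, 2 ^ (κ0 + 3 * l) ≤ i → b i = 0) ∧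
    (∀ i, |a (i / 2) - (2 : ℝ) ^ (1 / p) * a i| ≤ 2 / l * b i) ∧
    lpn p (fun i : Fin (2 ^ (κ0 + 3 * l)) => b i) ≤
      60 * lpn p (fun i : Fin (2 ^ (κ0 + 3 * l)) => a i) ∧
    1 ≤ lpn p (fun i : Fin (2 ^ (κ0 + 3 * l)) => a i) ∧
    (∀ q : ℝ, 1 ≤ q → q ≤ p → lpn q (fun i : Fin (2 ^ (κ0 + 3 * l)) => a i) ≤
      (3 * l + 1) * (2 : ℝ) ^ ((κ0 + 3 * l : ℝ) * (1 / q - 1 / p))) ∧
    ∑ i : Fin (2 ^ (κ0 + 3 * l)), a i ^ 2 ≤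
      ((3 * l + 1) * (2 : ℝ) ^ (-((κ0 : ℝ) * (1 / p - 1 / 2)))) ^ 2

/-- ARR (250 lines). From `T : X^N → L¹(ν, X)` and `(y_k) ∼ ℓ_p^K`: `x ω n k` is the value of
`T (e_n ⊗ y_k)` at `ω`. If the sampled rows are distinct and the sampled columns in each row are
distinct, `T` gives the upper bound `b √M ‖a‖_p` and (`M = 1`) the lower bound; collisions have
probability at most `M²/N + M D²/K` and cost at most `b M D ‖a‖_p`; choose `K`, `N` large. -/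
def ArrStatement (𝕜 : Type*) [RCLike 𝕜] (X : Type*) [NormedAddCommGroup X]
    [NormedSpace 𝕜 X] : Prop :=
  ∀ p : ℝ, 1 ≤ p → p < 2 → ContainsLp 𝕜 X p →
    (∃ (Ω : Type) (_ : MeasurableSpace Ω) (ν : Measure Ω), ContainsUniformly 𝕜 (Lp X 1 ν) X) →
    ∃ c b : ℝ, 0 < c ∧ 0 < b ∧ ∀ D' M' : ℕ, ∃ (N K : ℕ) (Ω : Type) (_ : MeasurableSpace Ω)
      (ν : Measure Ω) (x : Ω → Fin N → Fin K → X), 0 < N ∧ 0 < K ∧
      ∀ (D M : ℕ) (a : Fin D → ℝ), D ≤ D' → M ≤ M' → 1 ≤ M →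
        Integrable (fun ω => Psi 𝕜 (x ω) M a) ν ∧
        ∫ ω, Psi 𝕜 (x ω) M a ∂ν ≤ b * Real.sqrt M * lpn p a ∧
        c * lpn p a ≤ ∫ ω, Psi 𝕜 (x ω) 1 a ∂ν

/-- PICK (120 lines, uses ARR). One point `ω` where everything is under control: the function
`Psi 1 ah - δ (Psi 1 aI + ∑ Psi (2^j) 1 / ((1+j)² 2^(j/2)) + ∑ Psi (2^k) ah / (...))` has positive
integral; divide `x ω` by `Psi 1 ah`. -/
def PickStatement (𝕜 : Type*) [RCLike 𝕜] (X : Type*) [NormedAddCommGroup X]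
    [NormedSpace 𝕜 X] : Prop :=
  ∀ p : ℝ, 1 ≤ p → p < 2 → ContainsLp 𝕜 X p →
    (∃ (Ω : Type) (_ : MeasurableSpace Ω) (ν : Measure Ω), ContainsUniformly 𝕜 (Lp X 1 ν) X) →
    ∃ β : ℝ, 1 ≤ β ∧ ∀ (D n J : ℕ) (ah aI : Fin D → ℝ), lpn p aI ≤ 60 * lpn p ah →
      1 ≤ lpn p ah → ∃ (N K : ℕ) (x : Fin N → Fin K → X), 0 < N ∧ 0 < K ∧
        Psi 𝕜 x 1 ah = 1 ∧ Psi 𝕜 x 1 aI ≤ β ∧
        (∀ j ≤ J, Psi 𝕜 x (2 ^ j) (fun _ : Fin 1 => (1 : ℝ)) ≤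
          β * (1 + j) ^ 2 * (2 : ℝ) ^ ((j : ℝ) / 2)) ∧
        ∀ k ≤ n, Psi 𝕜 x (2 ^ k) ah ≤ β * (1 + k) ^ 2 * (2 : ℝ) ^ ((k : ℝ) / 2)

/-! ## The two halves -/

/-- CONS (helper1): the second half. -/
def ConsStatement (𝕜 : Type*) [RCLike 𝕜] (X : Type*) [NormedAddCommGroup X]
    [NormedSpace 𝕜 X] : Prop :=
  ∀ (p M : ℝ), 1 ≤ p → p < 2 → 1 ≤ M → ∀ (m : ℕ) (δ : ℝ), 1 ≤ m → 0 < δ →
    ∃ (n : ℕ) (η σ : ℝ), 0 < η ∧ 0 < σ ∧ ∀ (I Ω : Type) [Fintype I] [Nonempty I] [Fintype Ω]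
      [Nonempty Ω] (U : I → Ω → X), Good 𝕜 U p M η σ n →
    ∃ r : ℝ, 0 ≤ r ∧ r ≤ 1 / 2 + δ ∧ ∃ u : Fin m → Fin m → X, ∀ a : Fin m → Fin m → 𝕜,
      nr r (fun j => lpn p (fun l => ‖a j l‖)) ≤ ‖∑ j, ∑ l, a j l • u j l‖ ∧
      ‖∑ j, ∑ l, a j l • u j l‖ ≤
        600 * (32 * M) ^ 2 * nr r (fun j => lpn p (fun l => ‖a j l‖))

/-- PROD (helper1): the first half. -/
def ProdStatement (𝕜 : Type*) [RCLike 𝕜] (X : Type*) [NormedAddCommGroup X]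
    [NormedSpace 𝕜 X] : Prop :=
  ∀ p : ℝ, 1 ≤ p → p < 2 → ContainsLp 𝕜 X p → (∀ q : ℝ, 1 ≤ q → q < p → HasType X q) →
    (∃ (Ω : Type) (_ : MeasurableSpace Ω) (ν : Measure Ω), ContainsUniformly 𝕜 (Lp X 1 ν) X) →
    ∃ M : ℝ, 1 ≤ M ∧ ∀ (n : ℕ) (η σ : ℝ), 0 < η → 0 < σ →
      ∃ (I Ω : Type) (_ : Fintype I) (_ : Nonempty I) (_ : Fintype Ω) (_ : Nonempty Ω)
        (U : I → Ω → X), Good 𝕜 U p M η σ n

end Pool.Agent.Lib.MP_cdd7b4_an.MX
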